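import Pool.Agent.Helper27.VF.Goals

/-!
# Project VF: packet LIM
-/

set_option autoImplicit false

namespace Pool.Agent.Helper49.VF

open Pool.Agent.Helper27.VF

universe u

variable {A W : Type u} [Group A] [MulAction A W] {G G₀ : SimpleGraph W} {w : W}
  {p : Ultrafilter W} {k : ℕ}

/-- finitely many cuts with a given separator -/
theorem finite_of_sep (hS : Stg A G G₀ w p) {X : Set W} (hX : X.Finite) :
    {c : Set W × Set W | IsCut G c ∧ sep c = X}.Finite := by
  classical
  set N : Set W := (X ∪ ⋃ x ∈ X, {y | G₀.Adj x y}) ∪ {w} with hN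
  have hNf : N.Finite := by
    apply Set.Finite.union (Set.Finite.union hX (hX.biUnion fun x _ => hS.lf x))
    exact Set.finite_singleton w
  have hadj : ∀ x, x ∉ N → ∀ y, G₀.Adj x y → y ∉ X := by
    intro x hx y hxy hy
    apply hx
    left; right
    simp only [Set.mem_iUnion]
    exact ⟨y, hy, hxy.symm⟩
  have hXN : ∀ x, x ∉ N → x ∉ X := fun x hx h => hx (Or.inl (Or.inl h))
  apply Set.Finite.of_finite_image (f := fun c : Set W × Set W => N ∩ c.1)
  · apply hNf.finite_subsets.subset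
    rintro _ ⟨c, _, rfl⟩
    exact Set.inter_subset_left
  · rintro c ⟨hc, hcX⟩ c' ⟨hc', hcX'⟩ heq
    have hmem : ∀ x, x ∈ N → (x ∈ c.1 ↔ x ∈ c'.1) := by
      intro x hx
      have h1 : x ∈ N ∩ c.1 ↔ x ∈ N ∩ c'.1 := by
        have : N ∩ c.1 = N ∩ c'.1 := heq
        rw [this]
      constructor
      · intro h; exact (h1.1 ⟨hx, h⟩).2
      · intro h; exact (h1.2 ⟨hx, h⟩).2
    -- one step
    have step : ∀ d : Set W × Set W, IsCut G d → sep d = X → ∀ x y, G₀.Adj x y → y ∉ X →
        x ∈ d.1 → y ∈ d.1 := by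
      intro d hd hdX x y hxy hy hx
      by_contra h
      have h2 : y ∉ d.2 := fun h2 => hd.no x hx y h2 (hS.le hxy)
      exact hy (by rw [← hdX, mem_sep]; exact ⟨h, h2⟩)
    have hall : ∀ x, (x ∈ c.1 ↔ x ∈ c'.1) := by
      intro x
      obtain ⟨W1⟩ := hS.conn.preconnected x w
      have hind : ∀ (a b : W) (q : G₀.Walk a b), (b ∈ c.1 ↔ b ∈ c'.1) → (a ∈ c.1 ↔ a ∈ c'.1) := by
        intro a b q
        induction q with
        | nil => intro h; exact h
        | @cons a b' b hab q ih =>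
          intro h
          by_cases ha : a ∈ N
          · exact hmem a ha
          · have ha' := hXN a ha
            have hb' := hadj a ha b' hab
            have h1 := ih h
            constructor
            · intro hac
              exact step c' hc' hcX' b' a hab.symm ha' (h1.1 (step c hc hcX a b' hab hb' hac))
            · intro hac
              exact step c hc hcX b' a hab.symm ha' (h1.2 (step c' hc' hcX' a b' hab hb' hac))
      exact hind x w W1 (hmem w (Or.inr rfl))
    have h2 : ∀ d : Set W × Set W, IsCut G d → sep d = X → ∀ x, (x ∈ d.2 ↔ x ∉ d.1 ∧ x ∉ X) := by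
      intro d hd hdX x
      constructor
      · intro hx
        refine ⟨fun h => hd.disj x h hx, ?_⟩
        rw [← hdX, mem_sep]
        exact fun h => h.2 hx
      · rintro ⟨hx1, hx2⟩
        by_contra h
        exact hx2 (by rw [← hdX, mem_sep]; exact ⟨hx1, h⟩)
    apply Prod.ext
    · ext x; exact hall x
    · ext x
      rw [h2 c hc hcX, h2 c' hc' hcX', hall x]

/-- **LIM** -/
theorem lim : LimStmt.{u} := by
  intro A W _ _ G G₀ w p hS k hk g h
  classical
  by_contra hinf
  set 𝒮 : Set (Set W × Set W) := {c | c ∈ SS A G p k ∧ g • w ∈ c.1 ∧ h • w ∈ c.2} with h𝒮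
  have hinf' : 𝒮.Infinite := hinf
  have hne : (Filter.cofinite ⊓ Filter.principal 𝒮).NeBot :=
    Filter.cofinite_inf_principal_neBot_iff.2 hinf'
  set q : Ultrafilter (Set W × Set W) := Ultrafilter.of (Filter.cofinite ⊓ Filter.principal 𝒮)
    with hq
  have hle : (q : Filter (Set W × Set W)) ≤ Filter.cofinite ⊓ Filter.principal 𝒮 :=
    Ultrafilter.of_le _
  have hq𝒮 : 𝒮 ∈ q := hle (Filter.mem_inf_of_right (Filter.mem_principal_self _))
  have hqf : ∀ T : Set (Set W × Set W), T ∈ q → T.Infinite := by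
    intro T hT hTf
    have h1 : Tᶜ ∈ q := hle (Filter.mem_inf_of_left hTf.compl_mem_cofinite)
    exact Ultrafilter.compl_mem_iff_notMem.1 h1 hT
  set U : Set W := {x | {c : Set W × Set W | x ∈ c.1} ∈ q} with hU
  set V : Set W := {x | {c : Set W × Set W | x ∈ c.2} ∈ q} with hV
  have hmsep : ∀ x, x ∈ sep (U, V) → {c : Set W × Set W | x ∈ sep c} ∈ q := by
    intro x hx
    rw [mem_sep] at hx
    have h1 : {c : Set W × Set W | x ∈ c.1}ᶜ ∈ q := Ultrafilter.compl_mem_iff_notMem.2 hx.1
    have h2 : {c : Set W × Set W | x ∈ c.2}ᶜ ∈ q := Ultrafilter.compl_mem_iff_notMem.2 hx.2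
    apply Filter.mem_of_superset (Filter.inter_mem h1 h2)
    rintro c ⟨h3, h4⟩
    exact mem_sep.2 ⟨h3, h4⟩
  have hfinset : ∀ F : Finset W, (F : Set W) ⊆ sep (U, V) →
      {c : Set W × Set W | (F : Set W) ⊆ sep c} ∈ q := by
    intro F hF
    have h1 : (⋂ x ∈ F, {c : Set W × Set W | x ∈ sep c}) ∈ (q : Filter (Set W × Set W)) := by
      rw [Filter.biInter_finset_mem]
      intro x hx
      exact hmsep x (hF hx)
    apply Filter.mem_of_superset h1
    intro c hc x hx
    simp only [Set.mem_iInter] at hc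
    exact hc x hx
  have hcard : ∀ F : Finset W, (F : Set W) ⊆ sep (U, V) → F.card ≤ k := by
    intro F hF
    obtain ⟨c, hc1, hc2⟩ := Ultrafilter.nonempty_of_mem (Filter.inter_mem (hfinset F hF) hq𝒮)
    have h1 : (F : Set W).ncard ≤ (sep c).ncard := Set.ncard_le_ncard hc1 hc2.1.1.fin
    rw [Set.ncard_coe_finset, hc2.1.2.1] at h1
    exact h1
  have hfin : (sep (U, V)).Finite := by
    by_contra hinf2
    obtain ⟨F, hF1, hF2⟩ := Set.Infinite.exists_subset_card_eq hinf2 (k + 1)
    have := hcard F hF1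
    omega
  have hcut : IsCut G (U, V) := by
    refine ⟨?_, hfin, ?_⟩
    · intro x hx1 hx2
      obtain ⟨c, ⟨hc1, hc2⟩, hc3⟩ := Ultrafilter.nonempty_of_mem
        (Filter.inter_mem (Filter.inter_mem hx1 hx2) hq𝒮)
      exact hc3.1.1.disj x hc1 hc2
    · intro x hx y hy hxy
      obtain ⟨c, ⟨hc1, hc2⟩, hc3⟩ := Ultrafilter.nonempty_of_mem
        (Filter.inter_mem (Filter.inter_mem hx hy) hq𝒮)
      exact hc3.1.1.no x hc1 y hc2 hxy
  have hgU : g • w ∈ U := Filter.mem_of_superset hq𝒮 fun c hc => hc.2.1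
  have hhV : h • w ∈ V := Filter.mem_of_superset hq𝒮 fun c hc => hc.2.2
  have hdis : Dis p (U, V) g h := ⟨fact1 hS hcut hgU, fact1' hS hcut hhV⟩
  have hkle : k ≤ (sep (U, V)).ncard := hk _ hcut g h hdis
  have hsub : {c : Set W × Set W | sep (U, V) ⊆ sep c} ∈ q := by
    have := hfinset hfin.toFinset (by simp)
    simpa using this
  have hT : {c : Set W × Set W | IsCut G c ∧ sep c = sep (U, V)} ∈ q := by
    apply Filter.mem_of_superset (Filter.inter_mem hsub hq𝒮)
    rintro c ⟨hc1, hc2⟩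
    refine ⟨hc2.1.1, ?_⟩
    symm
    apply Set.eq_of_subset_of_ncard_le hc1 _ hc2.1.1.fin
    rw [hc2.1.2.1]
    exact hkle
  exact hqf _ hT (finite_of_sep hS hfin)

end Pool.Agent.Helper49.VF
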