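import Pool.Agent.Helper96.VF.Goals

/-!
Project VF (MP_6829b3_nt): `C3`.
-/

set_option autoImplicit false

namespace Pool.Agent.Helper49.VF

open Pool.Agent.Helper96.VF

theorem gC3 : C3 := by
  intro f n p₁ q₁ p q p₂ q₂ h1 h h2 h5 h6 hne
  obtain ⟨a1, a2, a3, a4⟩ := h1
  obtain ⟨b1, b2, b3, b4⟩ := h
  obtain ⟨c1, c2, c3, c4⟩ := h2
  obtain ⟨hp, hq⟩ := h5
  obtain ⟨hp', hq'⟩ := h6
  unfold TC at hne ⊢
  by_cases hf : f
  · simp only [hf, true_and] at hne ⊢
    rcases hp with hp | hp <;> rcases hq with hq | hq <;> rcases hp' with hp' | hp' <;>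
      rcases hq' with hq' | hq' <;> omega
  · simp only [hf, true_and, false_and, not_false_eq_true] at hne ⊢
    rcases hp with hp | hp <;> rcases hq with hq | hq <;> rcases hp' with hp' | hp' <;>
      rcases hq' with hq' | hq' <;> omega

end Pool.Agent.Helper49.VF
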