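import Pool.Agent.Helper27.VF.Goals

/-!
# Project VF: packet CHN
-/

set_option autoImplicit false

namespace Pool.Agent.Helper49.VF

open Pool.Agent.Helper27.VF

universe u

/-- the vertices of a walk -/
theorem walk_pt {W : Type u} {G₀ : SimpleGraph W} (hc : G₀.Connected) {a b : W}
    (q : G₀.Walk a b) : ∀ i, i ≤ q.length → ∃ x, G₀.dist a x ≤ i ∧ G₀.dist x b ≤ q.length - i := by
  induction q with
  | @nil a =>
    intro i _
    refine ⟨a, ?_, ?_⟩ <;> rw [SimpleGraph.dist_self] <;> exact Nat.zero_le _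
  | @cons a b' b hab q ih =>
    intro i hi
    rcases Nat.eq_zero_or_pos i with rfl | hi0
    · exact ⟨a, by simp, by simpa using SimpleGraph.dist_le (SimpleGraph.Walk.cons hab q)⟩
    · rw [SimpleGraph.Walk.length_cons] at hi
      obtain ⟨x, hx1, hx2⟩ := ih (i - 1) (by omega)
      refine ⟨x, ?_, ?_⟩
      · have h1 := hc.dist_triangle (u := a) (v := b') (w := x)
        have h2 : G₀.dist a b' ≤ 1 := by
          have := SimpleGraph.dist_le (SimpleGraph.Walk.cons hab SimpleGraph.Walk.nil)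
          simpa using this
        omega
      · rw [SimpleGraph.Walk.length_cons]; omega

/-- **CHN** -/
theorem chn (hF : FacStmt.{u}) : ChnStmt.{u} := by
  intro A W _ _ G G₀ w p hS k
  classical
  obtain ⟨⟨R, hR⟩, _, hinf⟩ := hF A W G G₀ w p hS
  refine ⟨(2 * R + 1) * (k + 1), ?_⟩
  intro c hc hck a b hab
  have hcon := hS.conn
  -- points on both sides
  have hex : ∀ d : Set W × Set W, IsCut G d → ∀ a : A, Inn p a d.1 → ∃ g : A, g • w ∈ d.1 := by
    intro d hd a ha
    have h1 := inn_infinite hS ha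
    have h2 : {x | x ∈ d.1 ∧ ∃ y, y ∉ d.1 ∧ G₀.Adj x y}.Finite := by
      apply (hd.fin.biUnion (fun y _ => hS.lf y)).subset
      rintro x ⟨hx, y, hy, hxy⟩
      simp only [Set.mem_iUnion]
      refine ⟨y, ?_, hxy.symm⟩
      rw [mem_sep]
      exact ⟨hy, fun h => hd.no x hx y h (hS.le hxy)⟩
    exact (hinf d.1 h1 h2).nonempty
  obtain ⟨g₀, hg₀⟩ := hex c hc a hab.1
  obtain ⟨h₀, hh₀⟩ := hex (c.2, c.1) hc.swap b hab.2
  have hP : ∃ n : ℕ, ∃ g h : A, g • w ∈ c.1 ∧ h • w ∈ c.2 ∧ G₀.dist (g • w) (h • w) = n :=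
    ⟨_, g₀, h₀, hg₀, hh₀, rfl⟩
  obtain ⟨g, h, hg, hh, hn⟩ := Nat.find_spec hP
  have hmin : ∀ g' h' : A, g' • w ∈ c.1 → h' • w ∈ c.2 →
      Nat.find hP ≤ G₀.dist (g' • w) (h' • w) := fun g' h' h1 h2 =>
    Nat.find_min' hP ⟨g', h', h1, h2, rfl⟩
  set n := Nat.find hP with hndef
  refine ⟨g, h, hg, hh, ?_⟩
  rw [hn]
  by_contra hlt
  push Not at hlt
  obtain ⟨q, hq⟩ := hcon.exists_walk_length_eq_dist (g • w) (h • w)
  rw [hn] at hq
  have hv : ∀ i : ℕ, ∃ x, i ≤ n → G₀.dist (g • w) x ≤ i ∧ G₀.dist x (h • w) ≤ n - i := by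
    intro i
    by_cases hi : i ≤ n
    · obtain ⟨x, h1, h2⟩ := walk_pt hcon q i (by omega)
      rw [hq] at h2
      exact ⟨x, fun _ => ⟨h1, h2⟩⟩
    · exact ⟨w, fun h => absurd h hi⟩
  choose v hv using hv
  choose e he using hR
  have htr : ∀ x y z : W, G₀.dist x z ≤ G₀.dist x y + G₀.dist y z := fun x y z =>
    hcon.dist_triangle
  have hcomm : ∀ x y : W, G₀.dist x y = G₀.dist y x := fun x y => SimpleGraph.dist_comm
  -- interior points lie in the separator
  have hint : ∀ i, R < i → i + R < n → e (v i) • w ∈ sep c := by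
    intro i h1 h2
    obtain ⟨h3, h4⟩ := hv i (by omega)
    have h5 := he (v i)
    rw [mem_sep]
    constructor
    · intro h6
      have h7 := hmin (e (v i)) h h6 hh
      have h8 := htr (e (v i) • w) (v i) (h • w)
      omega
    · intro h6
      have h7 := hmin g (e (v i)) hg h6
      have h8 := htr (g • w) (v i) (e (v i) • w)
      have h9 := hcomm (v i) (e (v i) • w)
      omega
  have hdist : ∀ i j, i ≤ j → j ≤ n → j - i ≤ G₀.dist (v i) (v j) := by
    intro i j hij hj
    obtain ⟨h3, h4⟩ := hv i (by omega)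
    obtain ⟨h5, h6⟩ := hv j hj
    have h7 := htr (g • w) (v i) (h • w)
    have h8 := htr (v i) (v j) (h • w)
    omega
  let ix : ℕ → ℕ := fun j => (2 * R + 1) * j + (R + 1)
  have hix : ∀ j, j ≤ k → R < ix j ∧ ix j + R < n := by
    intro j hj
    have h1 : (2 * R + 1) * j ≤ (2 * R + 1) * k := Nat.mul_le_mul_left _ hj
    have h2 : (2 * R + 1) * (k + 1) = (2 * R + 1) * k + (2 * R + 1) := by ring
    constructor
    · change R < (2 * R + 1) * j + (R + 1)
      omega
    · change (2 * R + 1) * j + (R + 1) + R < n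
      omega
  have hne : ∀ i j, i < j → j ≤ k → e (v (ix i)) • w ≠ e (v (ix j)) • w := by
    intro i j hij hj heq
    have h1 : (2 * R + 1) * (i + 1) ≤ (2 * R + 1) * j := Nat.mul_le_mul_left _ hij
    have h2 : (2 * R + 1) * (i + 1) = (2 * R + 1) * i + (2 * R + 1) := by ring
    have h3 : ix j = (2 * R + 1) * j + (R + 1) := rfl
    have h4 : ix i = (2 * R + 1) * i + (R + 1) := rfl
    have h5 := hdist (ix i) (ix j) (by omega) (by have := hix j hj; omega)
    have h6 := he (v (ix i))
    have h7 := he (v (ix j))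
    have h8 := htr (v (ix i)) (e (v (ix i)) • w) (v (ix j))
    have h9 := hcomm (v (ix i)) (e (v (ix i)) • w)
    rw [← heq] at h7
    omega
  let f : Fin (k + 1) → W := fun j => e (v (ix j)) • w
  have hfinj : Function.Injective f := by
    intro i j hij
    rcases lt_trichotomy i j with h1 | h1 | h1
    · exact absurd hij (hne i j h1 (by have := j.2; omega))
    · exact h1
    · exact absurd hij.symm (hne j i h1 (by have := i.2; omega))
  have hfr : Set.range f ⊆ sep c := by
    rintro _ ⟨j, rfl⟩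
    have := hix j (by have := j.2; omega)
    exact hint _ this.1 this.2
  have h1 := Set.ncard_le_ncard hfr hc.fin
  have h2 : (Set.range f).ncard = k + 1 := by
    rw [← Set.image_univ, Set.ncard_image_of_injective _ hfinj, Set.ncard_univ]
    simp
  omega

end Pool.Agent.Helper49.VF
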