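import Mathlib

/-!
# M. Hall: a finitely generated proper subgroup of a free group lies in a proper subgroup of finite index
-/

set_option autoImplicit false

namespace Pool.Agent.Helper49.VF

section perm

variable {ι : Type*} {Ω : Type*} [MulAction (FreeGroup ι) Ω]

open Classical in
/-- the action of a letter on the finite set `Y`, made a permutation -/
noncomputable def sig (Y : Set Ω) [Finite Y] (a : ι) : Equiv.Perm Y :=
  Equiv.extendSubtype (α := Y) (p := fun y => FreeGroup.of a • (y : Ω) ∈ Y)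
    (q := fun y => (FreeGroup.of a)⁻¹ • (y : Ω) ∈ Y)
    { toFun := fun y => ⟨⟨FreeGroup.of a • ((y : Y) : Ω), y.2⟩, by simp⟩
      invFun := fun y => ⟨⟨(FreeGroup.of a)⁻¹ • ((y : Y) : Ω), y.2⟩, by simp⟩
      left_inv := by intro y; simp
      right_inv := by intro y; simp }

open Classical in
lemma sig_apply (Y : Set Ω) [Finite Y] (a : ι) (y : Y) (h : FreeGroup.of a • (y : Ω) ∈ Y) :
    ((sig Y a y : Y) : Ω) = FreeGroup.of a • (y : Ω) := by
  exact congrArg Subtype.val (Equiv.extendSubtype_apply_of_mem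
    (p := fun y : Y => FreeGroup.of a • (y : Ω) ∈ Y)
    (q := fun y : Y => (FreeGroup.of a)⁻¹ • (y : Ω) ∈ Y) _ y h)

lemma sig_symm_apply (Y : Set Ω) [Finite Y] (a : ι) (y : Y)
    (h : (FreeGroup.of a)⁻¹ • (y : Ω) ∈ Y) :
    (((sig Y a)⁻¹ y : Y) : Ω) = (FreeGroup.of a)⁻¹ • (y : Ω) := by
  have h1 : sig Y a ⟨(FreeGroup.of a)⁻¹ • (y : Ω), h⟩ = y := by
    apply Subtype.ext
    rw [sig_apply Y a ⟨(FreeGroup.of a)⁻¹ • (y : Ω), h⟩ (by simp)]
    simp
  have h2 : (sig Y a)⁻¹ y = ⟨(FreeGroup.of a)⁻¹ • (y : Ω), h⟩ := by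
    rw [Equiv.Perm.inv_eq_iff_eq]
    exact h1.symm
  rw [h2]

lemma path (Y : Set Ω) [Finite Y] (o : Ω) (ho : o ∈ Y) :
    ∀ w : List (ι × Bool), (∀ s, s <:+ w → FreeGroup.mk s • o ∈ Y) →
      ((FreeGroup.lift (sig Y) (FreeGroup.mk w) ⟨o, ho⟩ : Y) : Ω) = FreeGroup.mk w • o := by
  intro w
  induction w with
  | nil =>
    intro _
    have : (FreeGroup.mk ([] : List (ι × Bool))) = 1 := rfl
    rw [this]; simp
  | cons x w ih =>
    intro hY
    obtain ⟨a, b⟩ := x
    have h1 := ih (fun s hs => hY s (hs.trans (List.suffix_cons _ _)))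
    have hmk : FreeGroup.mk ((a, b) :: w) = FreeGroup.mk [(a, b)] * FreeGroup.mk w := by
      rw [FreeGroup.mul_mk]; rfl
    have hw : FreeGroup.mk w • o ∈ Y := hY w (List.suffix_cons _ _)
    have hmem : FreeGroup.mk ((a, b) :: w) • o ∈ Y := hY _ (List.suffix_refl _)
    have h2 : FreeGroup.lift (sig Y) (FreeGroup.mk w) ⟨o, ho⟩ = ⟨FreeGroup.mk w • o, hw⟩ :=
      Subtype.ext h1
    rw [hmk, map_mul, Equiv.Perm.mul_apply, h2, mul_smul]
    rw [hmk, mul_smul] at hmem
    cases b
    · have h3 : FreeGroup.mk [(a, false)] = (FreeGroup.of a)⁻¹ := rfl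
      rw [h3] at hmem ⊢
      rw [map_inv, FreeGroup.lift_apply_of]
      exact sig_symm_apply Y a ⟨FreeGroup.mk w • o, hw⟩ hmem
    · have h3 : FreeGroup.mk [(a, true)] = FreeGroup.of a := rfl
      rw [h3] at hmem ⊢
      rw [FreeGroup.lift_apply_of]
      exact sig_apply Y a ⟨FreeGroup.mk w • o, hw⟩ hmem

end perm

lemma fi_comap {G G' : Type*} [Group G] [Group G'] (f : G' →* G) (H : Subgroup G)
    [H.FiniteIndex] : (H.comap f).FiniteIndex :=
  ⟨by
    rw [Subgroup.index_comap]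
    exact (Subgroup.instFiniteIndex_subgroupOf H f.range).index_ne_zero⟩

lemma mhall_free {ι : Type*} (B : Subgroup (FreeGroup ι)) (hfg : B.FG) (hne : B ≠ ⊤) :
    ∃ L : Subgroup (FreeGroup ι), B ≤ L ∧ L ≠ ⊤ ∧ L.FiniteIndex := by
  classical
  obtain ⟨T, hT⟩ := hfg
  obtain ⟨g, hg⟩ : ∃ g, g ∉ B := by
    by_contra h
    push Not at h
    exact hne (eq_top_iff.mpr fun x _ => h x)
  let o : FreeGroup ι ⧸ B := ((1 : FreeGroup ι) : FreeGroup ι ⧸ B)
  let Y : Set (FreeGroup ι ⧸ B) :=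
    ⋃ t ∈ insert g T, (fun s : List (ι × Bool) => FreeGroup.mk s • o) ''
      {s | s ∈ (FreeGroup.toWord t).tails}
  have hYfin : Y.Finite := by
    apply Set.Finite.biUnion (Finset.finite_toSet _)
    intro t _
    exact Set.Finite.image _ (List.finite_toSet _)
  have hY : ∀ t ∈ insert g T, ∀ s, s <:+ FreeGroup.toWord t → FreeGroup.mk s • o ∈ Y := by
    intro t ht s hs
    simp only [Y, Set.mem_iUnion]
    exact ⟨t, ht, s, by simpa using hs, rfl⟩
  have : Finite Y := hYfin
  have ho : o ∈ Y := by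
    have := hY g (Finset.mem_insert_self _ _) [] (List.nil_suffix)
    have h1 : (FreeGroup.mk ([] : List (ι × Bool))) = 1 := rfl
    rwa [h1, one_smul] at this
  have hact : ∀ t ∈ insert g T,
      ((FreeGroup.lift (sig Y) t ⟨o, ho⟩ : Y) : FreeGroup ι ⧸ B) = t • o := by
    intro t ht
    have := path Y o ho (FreeGroup.toWord t) (hY t ht)
    rwa [FreeGroup.mk_toWord] at this
  have hstab : ∀ t : FreeGroup ι, t • o = o ↔ t ∈ B := by
    intro t
    have h1 : t • o = ((t : FreeGroup ι) : FreeGroup ι ⧸ B) := by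
      change ((t * 1 : FreeGroup ι) : FreeGroup ι ⧸ B) = _
      rw [mul_one]
    rw [h1]
    constructor
    · intro h
      have := QuotientGroup.eq.mp h.symm
      simpa using this
    · intro h
      exact (QuotientGroup.eq.mpr (by simpa using h)).symm
  refine ⟨(MulAction.stabilizer (Equiv.Perm Y) (⟨o, ho⟩ : Y)).comap (FreeGroup.lift (sig Y)),
    ?_, ?_, ?_⟩
  · refine hT.symm.le.trans ?_
    rw [Subgroup.closure_le]
    intro t ht
    have ht' : t ∈ insert g T := Finset.mem_insert_of_mem ht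
    have htB : t ∈ B := by rw [← hT]; exact Subgroup.subset_closure ht
    simp only [Subgroup.coe_comap, Set.mem_preimage, SetLike.mem_coe, MulAction.mem_stabilizer_iff]
    apply Subtype.ext
    have := hact t ht'
    rw [(hstab t).mpr htB] at this
    exact this
  · intro htop
    have h1 : g ∈ (MulAction.stabilizer (Equiv.Perm Y) (⟨o, ho⟩ : Y)).comap
        (FreeGroup.lift (sig Y)) := by rw [htop]; trivial
    rw [Subgroup.mem_comap, MulAction.mem_stabilizer_iff] at h1
    have h2 := hact g (Finset.mem_insert_self _ _)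
    have h3 : ((FreeGroup.lift (sig Y) g ⟨o, ho⟩ : Y) : FreeGroup ι ⧸ B) = o :=
      congrArg Subtype.val h1
    rw [h3] at h2
    exact hg ((hstab g).mp h2.symm)
  · exact fi_comap _ _

/-- **M. Hall**, weak form -/
theorem mhall {A : Type*} [Group A] {ι : Type*} (b : FreeGroupBasis ι A) (B : Subgroup A)
    (hfg : B.FG) (hne : B ≠ ⊤) : ∃ L : Subgroup A, B ≤ L ∧ L ≠ ⊤ ∧ L.FiniteIndex := by
  have e : A ≃* FreeGroup ι := b.repr
  have hfg' : (B.map e.toMonoidHom).FG := by
    classical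
    obtain ⟨T, hT⟩ := hfg
    refine ⟨T.image e, ?_⟩
    rw [← hT, MonoidHom.map_closure, Finset.coe_image]
    rfl
  obtain ⟨L, h1, h2, h3⟩ := mhall_free (B.map e.toMonoidHom) hfg' (by
    intro h
    apply hne
    rw [eq_top_iff]
    intro x _
    have : e x ∈ B.map e.toMonoidHom := by rw [h]; trivial
    obtain ⟨y, hy, hyx⟩ := this
    have : y = x := e.injective hyx
    rwa [← this])
  refine ⟨L.comap e.toMonoidHom, ?_, ?_, ?_⟩
  · intro x hx
    exact h1 ⟨x, hx, rfl⟩
  · intro h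
    apply h2
    rw [eq_top_iff]
    intro x _
    have : e.symm x ∈ L.comap e.toMonoidHom := by rw [h]; trivial
    simpa using this
  · exact fi_comap _ _

end Pool.Agent.Helper49.VF
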