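import Pool.Agent.Helper27.VF.Goals

/-!
# Project VF: packet ORC
-/

set_option autoImplicit false

namespace Pool.Agent.Helper49.VF

open Pool.Agent.Helper27.VF

universe u

/-- **ORC** -/
theorem orc (h1 : OraStmt.{u}) (h2 : OrbStmt.{u}) : OrcStmt.{u} := by
  intro A W _ _ G G₀ w p hS k hk g d hd hgd
  obtain ⟨_, ora2⟩ := h1 A W G G₀ w p hS k hk
  obtain ⟨_, orb2, _, _⟩ := h2 A W G G₀ w p hS k hk
  by_contra hg
  obtain ⟨e, he, hge⟩ := orb2 g hg
  have hgd1 : Inn p g (tr g d).1 := by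
    rw [inn_tr_fst, inv_mul_cancel]; exact hd.2.1
  have hne : tr g d ≠ e := by
    intro h
    rw [← h] at hge
    exact (inn_snd hS hgd.1.1).1 hge hgd1
  obtain ⟨a, b, hab⟩ := hgd.1.2.2
  have hb : Inn p b (tr g d).2 := hab.2
  have hb1 : Inn p b e.1 := by
    by_contra h
    exact ora2 _ hgd _ he hne b ⟨hb, (inn_snd hS he.1.1).2 h⟩
  have hes : (e.2, e.1) ∈ SS A G p k := SS.swap he.1
  obtain ⟨hc1, _⟩ := corner hk hgd.1 hes (inn_inter.2 ⟨hgd1, hge⟩) (inn_inter.2 ⟨hb, hb1⟩)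
  -- the corner is below `tr g d`; translate back
  have hc2 : tr g⁻¹ (cor (tr g d) (e.2, e.1)) ∈ SS A G p k := SS.tr hS hc1 _
  have hc3 : Inn p (1 : A) (tr g⁻¹ (cor (tr g d) (e.2, e.1))).1 := by
    rw [inn_tr_fst, inv_inv, mul_one]
    exact inn_inter.2 ⟨hgd1, hge⟩
  have hlw : Lw (tr g⁻¹ (cor (tr g d) (e.2, e.1))) d := by
    constructor
    · intro x hx
      have hx' : g⁻¹⁻¹ • x ∈ (tr g d).1 := hx.1
      have : g⁻¹ • (g⁻¹⁻¹ • x) ∈ d.1 := hx'
      simpa using this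
    · intro x hx
      have : g⁻¹⁻¹ • x ∈ (tr g d).2 := by
        change g⁻¹ • (g⁻¹⁻¹ • x) ∈ d.2
        simpa using hx
      exact Or.inl this
  have heq := hd.2.2 _ hc2 hc3 hlw
  have heq2 : cor (tr g d) (e.2, e.1) = tr g d := by
    have := congrArg (tr g) heq
    rwa [tr_tr, mul_inv_cancel, tr_one] at this
  have h5 : Inn p (1 : A) (tr g d).1 := hgd.2.1
  rw [← heq2] at h5
  have h6 : Inn p (1 : A) e.2 := (inn_inter.1 h5).2
  exact (inn_snd hS he.1.1).1 h6 he.2.1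

end Pool.Agent.Helper49.VF
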