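import Pool.Agent.Helper38.VF.Goals2

/-!
# Project VTF: packet TR2
-/

set_option autoImplicit false

open Filter Topology

namespace Pool.Agent.Helper49.VF

open Pool.Agent.Helper38.VF

universe u

section
variable {H₁ H₂ : Type u} [NormedAddCommGroup H₁] [InnerProductSpace ℝ H₁] [CompleteSpace H₁]
  [NormedAddCommGroup H₂] [InnerProductSpace ℝ H₂] [CompleteSpace H₂]

/-- `1 - c A† A` -/
noncomputable def EE (A : H₁ →L[ℝ] H₂) (c : ℝ) : H₁ →L[ℝ] H₁ :=
  ContinuousLinearMap.id ℝ H₁ - c • (A.adjoint.comp A)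

theorem EE_apply (A : H₁ →L[ℝ] H₂) (c : ℝ) (y : H₁) : EE A c y = y - c • A.adjoint (A y) := rfl

theorem EE_norm (A : H₁ →L[ℝ] H₂) {c : ℝ} (hc : 0 ≤ c) (hcA : c * ‖A‖ ^ 2 ≤ 1) (y : H₁) :
    ‖EE A c y‖ ^ 2 ≤ ‖y‖ ^ 2 - c * ‖A y‖ ^ 2 := by
  rw [EE_apply, @norm_sub_sq_real H₁]
  have h1 : inner ℝ y (c • A.adjoint (A y)) = c * ‖A y‖ ^ 2 := by
    rw [real_inner_smul_right, ContinuousLinearMap.adjoint_inner_right, real_inner_self_eq_norm_sq]
  have h2 : ‖c • A.adjoint (A y)‖ ^ 2 ≤ c * ‖A y‖ ^ 2 := by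
    rw [norm_smul, mul_pow, Real.norm_eq_abs, sq_abs]
    have h3 : ‖A.adjoint (A y)‖ ≤ ‖A‖ * ‖A y‖ := by
      have := A.adjoint.le_opNorm (A y)
      rwa [LinearIsometryEquiv.norm_map] at this
    have h4 : ‖A.adjoint (A y)‖ ^ 2 ≤ ‖A‖ ^ 2 * ‖A y‖ ^ 2 := by
      rw [← mul_pow]
      exact pow_le_pow_left₀ (norm_nonneg _) h3 2
    calc c ^ 2 * ‖A.adjoint (A y)‖ ^ 2 ≤ c ^ 2 * (‖A‖ ^ 2 * ‖A y‖ ^ 2) :=
          mul_le_mul_of_nonneg_left h4 (by positivity)
      _ = (c * ‖A‖ ^ 2) * (c * ‖A y‖ ^ 2) := by ring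
      _ ≤ 1 * (c * ‖A y‖ ^ 2) := mul_le_mul_of_nonneg_right hcA (by positivity)
      _ = c * ‖A y‖ ^ 2 := one_mul _
  rw [h1]
  linarith

theorem EE_symm (A : H₁ →L[ℝ] H₂) (c : ℝ) (x y : H₁) :
    inner ℝ (EE A c x) y = inner ℝ x (EE A c y) := by
  rw [EE_apply, EE_apply, inner_sub_left, inner_sub_right, real_inner_smul_left,
    real_inner_smul_right, ContinuousLinearMap.adjoint_inner_left,
    ContinuousLinearMap.adjoint_inner_right]

theorem EE_pow_symm (A : H₁ →L[ℝ] H₂) (c : ℝ) (n : ℕ) (x y : H₁) :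
    inner ℝ ((EE A c ^ n) x) y = inner ℝ x ((EE A c ^ n) y) := by
  induction n generalizing x y with
  | zero => simp
  | succ n ih =>
    rw [pow_succ]
    rw [ContinuousLinearMap.mul_apply, ih, EE_symm]
    have : (EE A c ^ n * EE A c) y = (EE A c * EE A c ^ n) y := by
      rw [← pow_succ, ← pow_succ']
    rw [this, ContinuousLinearMap.mul_apply]

theorem EE_le (A : H₁ →L[ℝ] H₂) {c : ℝ} (hc : 0 ≤ c) (hcA : c * ‖A‖ ^ 2 ≤ 1) (y : H₁) :
    ‖EE A c y‖ ≤ ‖y‖ := by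
  have h1 := EE_norm A hc hcA y
  have h2 : ‖EE A c y‖ ^ 2 ≤ ‖y‖ ^ 2 := by
    have : 0 ≤ c * ‖A y‖ ^ 2 := by positivity
    linarith
  exact le_of_sq_le_sq h2 (norm_nonneg _)

theorem EE_pow_le (A : H₁ →L[ℝ] H₂) {c : ℝ} (hc : 0 ≤ c) (hcA : c * ‖A‖ ^ 2 ≤ 1) (n : ℕ)
    (y : H₁) : ‖(EE A c ^ n) y‖ ≤ ‖y‖ := by
  induction n with
  | zero => simp
  | succ n ih =>
    rw [pow_succ', ContinuousLinearMap.mul_apply]
    exact (EE_le A hc hcA _).trans ih

/-- `A (1 - c A† A) ^ n y → 0` -/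
theorem EE_tendsto (A : H₁ →L[ℝ] H₂) {c : ℝ} (hc : 0 < c) (hcA : c * ‖A‖ ^ 2 ≤ 1) (y : H₁) :
    Tendsto (fun n : ℕ => ‖A ((EE A c ^ n) y)‖ ^ 2) atTop (𝓝 0) := by
  let a : ℕ → ℝ := fun n => ‖(EE A c ^ n) y‖ ^ 2
  have hstep : ∀ n, a (n + 1) ≤ a n - c * ‖A ((EE A c ^ n) y)‖ ^ 2 := by
    intro n
    have h0 : (EE A c ^ (n + 1)) y = EE A c ((EE A c ^ n) y) := by
      rw [pow_succ' (EE A c) n]; rfl
    change ‖(EE A c ^ (n + 1)) y‖ ^ 2 ≤ _
    rw [h0]
    exact EE_norm A hc.le hcA _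
  have hanti : Antitone a := by
    apply antitone_nat_of_succ_le
    intro n
    have := hstep n
    have h2 : 0 ≤ c * ‖A ((EE A c ^ n) y)‖ ^ 2 := by positivity
    linarith
  have hbdd : BddBelow (Set.range a) := ⟨0, by rintro _ ⟨n, rfl⟩; positivity⟩
  have h1 := tendsto_atTop_ciInf hanti hbdd
  have h2 : Tendsto (fun n => a (n + 1)) atTop (𝓝 (⨅ i, a i)) := h1.comp (tendsto_add_atTop_nat 1)
  have h3 : Tendsto (fun n => (a n - a (n + 1)) / c) atTop (𝓝 0) := by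
    have := (h1.sub h2).div_const c
    simpa using this
  apply squeeze_zero (fun n => by positivity) _ h3
  intro n
  rw [le_div_iff₀ hc]
  have := hstep n
  linarith

end

/-- **TR2** -/
theorem tr2 : Tr2Stmt.{u} := by
  intro H₁ H₂ _ _ _ _ _ _ C hC k v η hη
  let c : ℝ := 1 / (‖C‖ ^ 2 + 1)
  have hc : 0 < c := by positivity
  have hcC : c * ‖C‖ ^ 2 ≤ 1 := by
    change 1 / (‖C‖ ^ 2 + 1) * ‖C‖ ^ 2 ≤ 1
    rw [one_div, inv_mul_le_iff₀ (by positivity)]
    linarith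
  have hcC' : c * ‖C.adjoint‖ ^ 2 ≤ 1 := by
    rwa [LinearIsometryEquiv.norm_map]
  let E : H₁ →L[ℝ] H₁ := EE C c
  let D : H₂ →L[ℝ] H₂ := EE C.adjoint c
  have hE : ∀ x, E x = x - c • C.adjoint (C x) := fun x => EE_apply C c x
  have hD : ∀ x, D x = x - c • C (C.adjoint x) := by
    intro x
    have := EE_apply C.adjoint c x
    rwa [ContinuousLinearMap.adjoint_adjoint] at this
  have hDC : ∀ n x, (D ^ n) (C x) = C ((E ^ n) x) := by
    intro n
    induction n with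
    | zero => intro x; simp
    | succ n ih =>
      intro x
      rw [pow_succ, pow_succ, ContinuousLinearMap.mul_apply, ContinuousLinearMap.mul_apply, ← ih]
      congr 1
      rw [hD, hE, map_sub, map_smul]
  -- powers of `D` tend to zero
  have hlim : ∀ x : H₂, Tendsto (fun n : ℕ => ‖(D ^ n) x‖) atTop (𝓝 0) := by
    intro x
    rw [Metric.tendsto_atTop]
    intro ε hε
    obtain ⟨_, hy, ⟨y, rfl⟩⟩ := Metric.dense_iff.1 hC x (ε / 2) (by positivity)
    have h1 := EE_tendsto C hc hcC y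
    rw [Metric.tendsto_atTop] at h1
    obtain ⟨N, hN⟩ := h1 ((ε / 2) ^ 2) (by positivity)
    refine ⟨N, fun n hn => ?_⟩
    have h2 := hN n hn
    rw [dist_zero_right, Real.norm_eq_abs, abs_of_nonneg (by positivity)] at h2
    have h3 : ‖C ((E ^ n) y)‖ < ε / 2 := lt_of_pow_lt_pow_left₀ 2 (by positivity) h2
    rw [dist_zero_right, norm_norm]
    have h4 : (D ^ n) x = (D ^ n) (x - C y) + C ((E ^ n) y) := by
      rw [← hDC, ← map_add]; congr 1; abel
    rw [h4]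
    have h5 : ‖(D ^ n) (x - C y)‖ ≤ ‖x - C y‖ := EE_pow_le C.adjoint hc.le hcC' n _
    have h6 : ‖x - C y‖ < ε / 2 := by
      have : dist (C y) x < ε / 2 := hy
      rwa [dist_comm, dist_eq_norm] at this
    calc _ ≤ ‖(D ^ n) (x - C y)‖ + ‖C ((E ^ n) y)‖ := norm_add_le _ _
      _ < ε := by linarith
  -- choice of `N`
  obtain ⟨N, hN⟩ : ∃ N : ℕ, ∀ j, ‖(D ^ (2 * N)) (v j)‖ * ‖v j‖ ≤ η := by
    have h1 : ∀ j, ∀ᶠ n : ℕ in atTop, ‖(D ^ n) (v j)‖ * ‖v j‖ ≤ η := by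
      intro j
      have h2 := (hlim (v j)).mul_const ‖v j‖
      rw [zero_mul] at h2
      exact (h2.eventually_lt_const hη).mono fun n hn => hn.le
    have h3 : ∀ᶠ n : ℕ in atTop, ∀ j, ‖(D ^ n) (v j)‖ * ‖v j‖ ≤ η := eventually_all.2 h1
    obtain ⟨M, hM⟩ := eventually_atTop.1 h3
    exact ⟨M, fun j => hM (2 * M) (by omega) j⟩
  let S : H₂ →L[ℝ] H₂ := c • ∑ i ∈ Finset.range (2 * N), D ^ i
  have hS : ∀ x, S x = c • ∑ i ∈ Finset.range (2 * N), (D ^ i) x := by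
    intro x
    change (c • ∑ i ∈ Finset.range (2 * N), D ^ i) x = _
    rw [ContinuousLinearMap.smul_apply, ContinuousLinearMap.sum_apply]
  refine ⟨S, ?_, ?_, ?_⟩
  · intro x
    have h1 : C.adjoint (S (C x)) = x - (E ^ (2 * N)) x := by
      rw [hS, map_smul, map_sum, Finset.smul_sum]
      have h2 : ∀ i ∈ Finset.range (2 * N), c • C.adjoint ((D ^ i) (C x)) =
          (E ^ i) x - (E ^ (i + 1)) x := by
        intro i _
        rw [hDC, pow_succ', ContinuousLinearMap.mul_apply, hE]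
        abel
      rw [Finset.sum_congr rfl h2, Finset.sum_range_sub']
      simp
    rw [h1, inner_sub_left, real_inner_self_eq_norm_sq]
    have h3 : inner ℝ ((E ^ (2 * N)) x) x = ‖(E ^ N) x‖ ^ 2 := by
      rw [two_mul, pow_add, ContinuousLinearMap.mul_apply]
      have := EE_pow_symm C c N ((E ^ N) x) x
      rw [this, real_inner_self_eq_norm_sq]
    rw [h3]
    have : 0 ≤ ‖(E ^ N) x‖ ^ 2 := by positivity
    linarith
  · intro j
    have h1 : S (C (C.adjoint (v j))) = v j - (D ^ (2 * N)) (v j) := by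
      rw [hS, Finset.smul_sum]
      have h2 : ∀ i ∈ Finset.range (2 * N), c • (D ^ i) (C (C.adjoint (v j))) =
          (D ^ i) (v j) - (D ^ (i + 1)) (v j) := by
        intro i _
        rw [pow_succ, ContinuousLinearMap.mul_apply, hD, map_sub, map_smul]
        abel
      rw [Finset.sum_congr rfl h2, Finset.sum_range_sub']
      simp
    rw [h1, inner_sub_left, real_inner_self_eq_norm_sq]
    have h3 : inner ℝ ((D ^ (2 * N)) (v j)) (v j) ≤ η :=
      (real_inner_le_norm _ _).trans (hN j)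
    linarith
  · intro U₁ U₂ hU
    have hadj : ∀ y, C.adjoint (U₂ y) = U₁ (C.adjoint y) := by
      intro y
      apply ext_inner_right ℝ
      intro x
      obtain ⟨x', rfl⟩ := U₁.surjective x
      rw [ContinuousLinearMap.adjoint_inner_left, hU, LinearIsometryEquiv.inner_map_map,
        LinearIsometryEquiv.inner_map_map, ContinuousLinearMap.adjoint_inner_left]
    have hDU : ∀ y, D (U₂ y) = U₂ (D y) := by
      intro y
      rw [hD, hD, hadj, hU, map_sub, map_smul]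
    have hDUn : ∀ (n : ℕ) y, (D ^ n) (U₂ y) = U₂ ((D ^ n) y) := by
      intro n
      induction n with
      | zero => intro y; simp
      | succ n ih =>
        intro y
        rw [pow_succ, ContinuousLinearMap.mul_apply, ContinuousLinearMap.mul_apply, hDU, ih]
    refine ⟨?_, hadj⟩
    intro y
    rw [hS, hS, map_smul, map_sum]
    congr 1
    exact Finset.sum_congr rfl fun i _ => hDUn i y

end Pool.Agent.Helper49.VF
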